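import Pool.Agent.Lib.MP_40d282_co.H4Per

open Pool.Agent.Lib.MP_40d282_co

/-- For every `μ` in `(√3 - 1, 1)` there is a countable `μ`-arrangement of disks of positive
homogeneity whose density exceeds the density relative to the union of the hexagonal
arrangement of disks of radius `1 / (1 + μ)`. -/
theorem Pool.Agent.Results.MP_40d282_co.EveryOrder.result :
    ∀ μ : ℝ, Real.sqrt 3 - 1 < μ → μ < 1 →
      ∀ u v : Plane, ‖u‖ = 1 → ‖v‖ = 1 → InnerProductGeometry.angle u v = Real.pi / 3 →
        ∃ (ι : Type) (_ : Countable ι) (x : ι → Plane) (ρ : ι → ℝ),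
          IsArrangement μ x ρ ∧ PosHomogeneous ρ ∧
            unionDensity (latticePoint u v) (fun _ => 1 / (1 + μ)) < density x ρ := by
  intro μ h1 h2 u v hu hv huv
  have h : Hex u v := by
    refine ⟨hu, hv, ?_⟩
    have := InnerProductGeometry.cos_angle u v
    rw [huv, hu, hv, Real.cos_pi_div_three] at this
    simpa using this.symm
  exact H4.main h h1 h2
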