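import Pool.Agent.FS.ExcessOrder.Three

open Pool.Agent.Lib.MP_40d282_co

/-- For `√3 - 1 < μ < 1`, every countable `μ`-arrangement of disks in the plane has density
relative to the union at most `π / (π - 3 (arccos μ - μ √(1 - μ²)))`. -/
theorem Pool.Agent.Results.MP_40d282_co.SegmentBound.result :
    ∀ μ : ℝ, Real.sqrt 3 - 1 < μ → μ < 1 →
      ∀ (ι : Type) [Countable ι] (x : ι → Plane) (ρ : ι → ℝ), IsArrangement μ x ρ →
        unionDensity x ρ ≤ ENNReal.ofReal
          (Real.pi / (Real.pi - 3 * (Real.arccos μ - μ * Real.sqrt (1 - μ ^ 2)))) :=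
  fun _ h1 h2 _ _ _ _ hA => Pool.Agent.FS.ExcessOrder.main3 hA h1 h2
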